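import Mathlib

namespace Pool.Agent.Results.MP_da5e02_co.Fails

noncomputable def detourDist {V : Type} (G : SimpleGraph V) (u v : V) : ℕ :=
  sSup {l | ∃ p : G.Walk u v, p.IsPath ∧ p.length = l}

def DetourPos {V : Type} (G : SimpleGraph V) (S : Finset V) : Prop :=
  ∀ u ∈ S, ∀ v ∈ S, u ≠ v → ∀ p : G.Walk u v, p.IsPath → p.length = detourDist G u v →
    ∀ w ∈ p.support, w ∈ S → w = u ∨ w = v

noncomputable def dp {V : Type} (G : SimpleGraph V) : ℕ :=
  sSup {k | ∃ S : Finset V, DetourPos G S ∧ S.card = k}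

noncomputable def detourDiam {V : Type} (G : SimpleGraph V) : ℕ :=
  sSup {l | ∃ u v, detourDist G u v = l}

def edges : List (ℕ × ℕ) := [(0, 1), (0, 2), (2, 3), (3, 4), (3, 5), (1, 6), (5, 6), (4, 7),
  (1, 8), (6, 9), (7, 9), (0, 10), (9, 10)]

def adj (u v : Fin 11) : Bool := edges.contains (u.val, v.val) || edges.contains (v.val, u.val)

def K : SimpleGraph (Fin 11) where
  Adj u v := adj u v = true
  symm := ⟨fun u v h => by rwa [adj, Bool.or_comm]⟩
  loopless := ⟨by decide⟩

instance : DecidableRel K.Adj := fun u v => inferInstanceAs (Decidable (adj u v = true))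

def go (v w : Fin 11) : ℕ → Fin 11 → List (Fin 11) → Bool
  | 0, _, _ => false
  | n + 1, a, vis => (a != v || !(vis.contains w) || decide (vis.length < 9)) &&
      (List.finRange 11).all fun b => !(adj a b) || vis.contains b || go v w n b (a :: vis)

lemma sound (v w : Fin 11) (hw : w ≠ v) {a : Fin 11} (p : K.Walk a v) : ∀ n vis, p.IsPath →
    (∀ x ∈ p.support, x ∉ vis) → go v w n a vis = true → (w ∈ vis ∨ w ∈ p.support) →
      vis.length + p.length < 9 := by
  induction p with
  | nil =>
    intro n vis _ _ h hm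
    cases n with
    | zero => simp [go] at h
    | succ n =>
      simp only [go, Bool.and_eq_true, Bool.or_eq_true] at h
      have : w ∈ vis := hm.resolve_right (by simpa using hw)
      simpa [this] using h.1
  | @cons a b c hab q ih =>
    intro n vis hp hd h hm
    cases n with
    | zero => simp [go] at h
    | succ n =>
      simp only [go, Bool.and_eq_true, List.all_eq_true] at h
      have h2 := h.2 b (List.mem_finRange b)
      have hb : b ∉ vis := hd b (by simp)
      have hab' : adj a b = true := hab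
      simp only [hab', Bool.not_true, Bool.false_or, Bool.or_eq_true, List.contains_iff_mem, hb,
        false_or] at h2
      rw [SimpleGraph.Walk.cons_isPath_iff] at hp
      have := ih hw n (a :: vis) hp.1 (fun x hx m => by
        rcases List.mem_cons.mp m with rfl | m
        · exact hp.2 hx
        · exact hd x (by simp [hx]) m) h2 (by
        simp only [SimpleGraph.Walk.support_cons, List.mem_cons] at hm ⊢
        tauto)
      simp only [List.length_cons, SimpleGraph.Walk.length_cons] at this ⊢
      omega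

lemma le_dist (u v : Fin 11) (p : K.Walk u v) (hp : p.IsPath) : p.length ≤ detourDist K u v :=
  le_csSup ⟨11, by
    rintro l ⟨q, hq, rfl⟩
    simpa using hq.length_lt.le⟩ ⟨p, hp, rfl⟩

def wk : (l : List (Fin 11)) → (a b : Fin 11) → List.IsChain K.Adj (a :: l ++ [b]) → K.Walk a b
  | [], _, _, h => SimpleGraph.Walk.cons (List.isChain_pair.mp h) SimpleGraph.Walk.nil
  | c :: l, _, b, h => SimpleGraph.Walk.cons (List.isChain_cons_cons.mp h).1
      (wk l c b (List.isChain_cons_cons.mp h).2)

lemma long (u v : Fin 11) (l : List (Fin 11)) (h : List.IsChain K.Adj (u :: l ++ [v]))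
    (h1 : (wk l u v h).support.Nodup) : (wk l u v h).length ≤ detourDist K u v :=
  le_dist u v _ (SimpleGraph.Walk.IsPath.mk' h1)

lemma nine : ∀ u ∈ ({5, 8, 10} : Finset (Fin 11)), ∀ v ∈ ({5, 8, 10} : Finset (Fin 11)), u ≠ v →
    9 ≤ detourDist K u v := by
  intro u hu v hv h
  simp only [Finset.mem_insert, Finset.mem_singleton] at hu hv
  rcases hu with rfl | rfl | rfl <;> rcases hv with rfl | rfl | rfl
  · exact absurd rfl h
  · exact long 5 8 [6, 9, 7, 4, 3, 2, 0, 1] (by decide) (by decide)
  · exact long 5 10 [6, 1, 0, 2, 3, 4, 7, 9] (by decide) (by decide)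
  · exact long 8 5 [1, 0, 2, 3, 4, 7, 9, 6] (by decide) (by decide)
  · exact absurd rfl h
  · exact long 8 10 [1, 6, 9, 7, 4, 3, 2, 0] (by decide) (by decide)
  · exact long 10 5 [9, 7, 4, 3, 2, 0, 1, 6] (by decide) (by decide)
  · exact long 10 8 [0, 2, 3, 4, 7, 9, 6, 1] (by decide) (by decide)
  · exact absurd rfl h

lemma chk : ∀ u ∈ ({5, 8, 10} : Finset (Fin 11)), ∀ v ∈ ({5, 8, 10} : Finset (Fin 11)),
    ∀ w ∈ ({5, 8, 10} : Finset (Fin 11)), u = v ∨ w = u ∨ w = v ∨ go v w 12 u [] = true := by
  decide +kernel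

lemma pos : DetourPos K {5, 8, 10} := by
  intro u hu v hv h p hp hl w hw hS
  by_contra hn
  rw [not_or] at hn
  have h1 := ((chk u hu v hv w hS).resolve_left h).resolve_left hn.1 |>.resolve_left hn.2
  have h2 := sound v w hn.2 p 12 [] hp (by simp) h1 (Or.inr hw)
  have h3 := nine u hu v hv h
  simp only [List.length_nil] at h2
  omega

lemma conn : K.Connected := by
  have h : ∀ v, v ∈ (wk [0, 10, 9, 7, 4, 3, 5, 6, 1] 2 8 (by decide)).support := by decide
  have r : ∀ v, K.Reachable 2 v := fun v => ⟨SimpleGraph.Walk.takeUntil _ v (h v)⟩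
  exact { preconnected := fun u v => (r u).symm.trans (r v), nonempty := ⟨0⟩ }

theorem result : ¬ ∀ (n : ℕ) (G : SimpleGraph (Fin n)), G.Connected →
    (dp G : ℤ) ≤ n - detourDiam G + 1 := by
  intro h
  have h1 := h 11 K conn
  have h2 : 3 ≤ dp K := le_csSup ⟨11, by
    rintro k ⟨S, _, rfl⟩
    simpa using S.card_le_univ⟩ ⟨_, pos, by decide⟩
  have h3 : 10 ≤ detourDist K 2 8 := by
    have := long 2 8 [0, 10, 9, 7, 4, 3, 5, 6, 1] (by decide) (by decide)
    exact this
  have h4 : detourDist K 2 8 ≤ detourDiam K :=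
    le_csSup (Set.Finite.subset (Set.finite_range fun x : Fin 11 × Fin 11 =>
      detourDist K x.1 x.2) (by
        rintro l ⟨u, v, rfl⟩
        exact ⟨(u, v), rfl⟩)).bddAbove ⟨2, 8, rfl⟩
  push_cast at h1
  omega

end Pool.Agent.Results.MP_da5e02_co.Fails
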